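import Pool.Agent.X297.BT.Blocks

/-!
# Linear equations with coefficients in pairs of opposite sign
-/

namespace Pool.Agent.X297.BT

variable {f : ℕ}

lemma bound_mono {p g c : ℕ} (h : p ≤ g) : bound p c ≤ bound g c := by
  rcases Nat.eq_zero_or_pos p with rfl | hp
  · simp [bound]
  · rw [bound, bound]
    have h1 : 1 ≤ g * max c 1 := Nat.mul_pos (by omega) (by omega)
    calc p ^ 2 * (p * max c 1) ^ p ≤ g ^ 2 * (g * max c 1) ^ p := by gcongr
      _ ≤ g ^ 2 * (g * max c 1) ^ g := by gcongr

/-- **Small solutions.** The coefficients occur in pairs of opposite sign. -/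
lemma sols_small_paired {g : ℕ} (hf : f = 2 * g) {T : Set (Fin f → ℤ)} {c : ℕ}
    (hT : ∀ s ∈ T, ∀ i, |s i| ≤ c) {bar : Fin f → Fin f} (hb : ∀ i, bar (bar i) = i)
    (hne : ∀ i, bar i ≠ i) (hbar : ∀ s ∈ T, ∀ i, s (bar i) = -s i) :
    ∀ e ∈ sols T, e ≠ 0 → ∃ m ∈ sols T, m ≠ 0 ∧ m ≤ e ∧ ∑ i, m i ≤ max 2 (bound g c) := by
  classical
  intro e he he0
  by_cases hpair : ∃ i, 0 < e i ∧ 0 < e (bar i)
  · obtain ⟨i, h1, h2⟩ := hpair
    have hval : ∀ j, (Pi.single i 1 + Pi.single (bar i) 1 : Fin f → ℕ) j ≤ e j := by
      intro j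
      rw [Pi.add_apply]
      by_cases h3 : j = i
      · subst h3
        rw [Pi.single_eq_same, Pi.single_eq_of_ne (Ne.symm (hne j))]
        omega
      · rw [Pi.single_eq_of_ne h3]
        by_cases h4 : j = bar i
        · subst h4
          rw [Pi.single_eq_same]
          omega
        · rw [Pi.single_eq_of_ne h4]
          omega
    refine ⟨Pi.single i 1 + Pi.single (bar i) 1, ?_, ?_, hval, ?_⟩
    · intro s hs
      have h3 : ∀ j, s j * (((Pi.single i 1 + Pi.single (bar i) 1 : Fin f → ℕ) j : ℕ) : ℤ) =
          (if j = i then s j else 0) + if j = bar i then s j else 0 := by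
        intro j
        rw [Pi.add_apply, Pi.single_apply, Pi.single_apply]
        split_ifs <;> simp; ring
      simp only [h3, Finset.sum_add_distrib, Finset.sum_ite_eq', Finset.mem_univ, if_true]
      rw [hbar s hs, add_neg_cancel]
    · intro h0
      have h3 := congrFun h0 i
      rw [Pi.add_apply, Pi.single_eq_same, Pi.zero_apply] at h3
      omega
    · rw [Finset.sum_congr rfl fun j _ => Pi.add_apply _ _ j, Finset.sum_add_distrib,
        Finset.sum_pi_single', Finset.sum_pi_single', if_pos (Finset.mem_univ _),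
        if_pos (Finset.mem_univ _)]
      exact le_max_left _ _
  · push Not at hpair
    set P : Finset (Fin f) := Finset.univ.filter fun i => 0 < e i with hP
    have hcard : P.card ≤ g := by
      have h1 : Disjoint P (P.image bar) := by
        rw [Finset.disjoint_left]
        intro i hi hi'
        obtain ⟨j, hj, rfl⟩ := Finset.mem_image.1 hi'
        rw [hP, Finset.mem_filter] at hi hj
        have := hpair j hj.2
        omega
      have h2 : (P.image bar).card = P.card :=
        Finset.card_image_of_injective _ (Function.LeftInverse.injective hb)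
      have h3 := Finset.card_le_univ (P ∪ P.image bar)
      rw [Finset.card_union_of_disjoint h1, h2, Fintype.card_fin] at h3
      omega
    let ι : Fin P.card ≃ P := P.equivFin.symm
    set T' : Set (Fin P.card → ℤ) := (fun s j => s (ι j)) '' T with hT'
    have key : ∀ (s : Fin f → ℤ) (m : Fin f → ℕ), (∀ i, i ∉ P → m i = 0) →
        ∑ i, s i * (m i : ℤ) = ∑ j : Fin P.card, s (ι j) * (m (ι j) : ℤ) := by
      intro s m hm
      rw [Equiv.sum_comp ι (fun i : P => s i * (m i : ℤ)),
        Finset.sum_coe_sort P (fun i => s i * (m i : ℤ))]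
      symm
      apply Finset.sum_subset (Finset.subset_univ _)
      intro i _ hi
      rw [hm i hi, Nat.cast_zero, mul_zero]
    have heP : ∀ i, i ∉ P → e i = 0 := by
      intro i hi
      rw [hP, Finset.mem_filter] at hi
      simp only [Finset.mem_univ, true_and] at hi
      omega
    have he' : (fun j => e (ι j)) ∈ sols T' := by
      rintro _ ⟨s, hs, rfl⟩
      rw [← key s e heP]
      exact he s hs
    have he0' : (fun j => e (ι j)) ≠ 0 := by
      intro h
      apply he0
      funext i
      by_cases hi : i ∈ P
      · have h1 := congrFun h (ι.symm ⟨i, hi⟩)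
        simpa using h1
      · exact heP i hi
    obtain ⟨m', hm1, hm2, hm3, hm4⟩ := sols_small (c := c) (T := T') (by
      rintro _ ⟨s, hs, rfl⟩ j
      exact hT s hs _) _ he' he0'
    set m : Fin f → ℕ := fun i => if h : i ∈ P then m' (ι.symm ⟨i, h⟩) else 0 with hm
    have hmι : ∀ j, m (ι j) = m' j := by
      intro j
      rw [hm]
      simp only [Subtype.coe_eta, Equiv.symm_apply_apply, (ι j).2, dite_true]
    have hmP : ∀ i, i ∉ P → m i = 0 := by
      intro i hi
      rw [hm]
      simp only [hi, dite_false]
    refine ⟨m, ?_, ?_, ?_, ?_⟩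
    · intro s hs
      rw [key s m hmP]
      simp only [hmι]
      exact hm1 _ ⟨s, hs, rfl⟩
    · intro h0
      apply hm2
      funext j
      rw [← hmι, h0]
      rfl
    · intro i
      by_cases hi : i ∈ P
      · have h1 := hm3 (ι.symm ⟨i, hi⟩)
        rw [← hmι] at h1
        simpa using h1
      · rw [hmP i hi]
        exact Nat.zero_le _
    · have h1 : ∑ i, m i = ∑ j, m' j := by
        have h2 := key (fun _ => 1) m hmP
        simp only [hmι, one_mul] at h2
        exact_mod_cast h2
      rw [h1]
      exact (hm4.trans (bound_mono hcard)).trans (le_max_right _ _)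

end Pool.Agent.X297.BT
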