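import Pool.Agent.X297.CM.Cone
import Pool.Agent.X297.UB.Dickson
import Pool.Agent.Y129.Pow
import Pool.Agent.H914R2.Blocks

/-!
# Products of the pull-backs of few classes
-/

open CategoryTheory AlgebraicGeometry

universe u v w

namespace Pool.Agent.X297.BT

open Pool.Agent.H914 Pool.Agent.H914.VarClass Pool.Agent.H914.VarClass.Obj
  Pool.Agent.H914.WeilCohomology Pool.Agent.H281R3.HT
open Pool.Agent.Y129 (pw pj liftN liftN_pj prod_perm)

variable {k : Type u} [Field k] {𝒱 : VarClass k} {ops : CycleOps 𝒱}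
  {W : WeilCohomology.{u, v} ops} {X Y Z : 𝒱.Obj} {f : ℕ} (v : Fin f → W.H X)

/-- The pull-back of a class. -/
noncomputable def val (a : Fin f × (Z ⟶ X)) : W.H Z := W.map a.2 (v a.1)

/-- The product of pull-backs. -/
noncomputable def prd (l : List (Fin f × (Z ⟶ X))) : W.H Z := (l.map (val v)).prod

/-- The numbers of the factors. -/
def cnt (l : List (Fin f × (Z ⟶ X))) (i : Fin f) : ℕ := (l.map Prod.fst).count i

lemma prd_nil : prd v ([] : List (Fin f × (Z ⟶ X))) = 1 := rfl

lemma prd_cons (a : Fin f × (Z ⟶ X)) (l : List (Fin f × (Z ⟶ X))) :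
    prd v (a :: l) = val v a * prd v l := by
  simp only [prd, List.map_cons, List.prod_cons]

lemma prd_append (l l' : List (Fin f × (Z ⟶ X))) : prd v (l ++ l') = prd v l * prd v l' := by
  rw [prd, List.map_append, List.prod_append, prd, prd]

lemma map_prd (g : Y ⟶ Z) (l : List (Fin f × (Z ⟶ X))) :
    W.map g (prd v l) = prd v (l.map fun a => (a.1, g ≫ a.2)) := by
  rw [prd, map_list_prod, List.map_map, prd, List.map_map]
  congr 1
  refine List.map_congr_left fun a _ => ?_
  simp only [Function.comp_apply, val, W.map_comp]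

variable {v} {dg : Fin f → ℕ}

lemma val_mem (hv : ∀ i, v i ∈ W.gr X (dg i)) (a : Fin f × (Z ⟶ X)) :
    val v a ∈ W.gr Z (dg a.1) := W.map_mem _ (hv _)

lemma prd_mem (hv : ∀ i, v i ∈ W.gr X (dg i)) (l : List (Fin f × (Z ⟶ X))) :
    prd v l ∈ W.gr Z (l.map fun a => dg a.1).sum := by
  induction l with
  | nil => exact W.one_mem Z
  | cons a l ih =>
    rw [prd_cons]
    simp only [List.map_cons, List.sum_cons]
    exact W.mul_mem (val_mem hv a) ih

lemma prd_perm (hv : ∀ i, v i ∈ W.gr X (dg i)) {l l' : List (Fin f × (Z ⟶ X))}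
    (h : l.Perm l') : prd v l = prd v l' ∨ prd v l = -prd v l' := by
  apply prod_perm (h.map _)
  intro x hx y hy
  obtain ⟨a, -, rfl⟩ := List.mem_map.1 hx
  obtain ⟨a', -, rfl⟩ := List.mem_map.1 hy
  rw [W.comm (val_mem hv a) (val_mem hv a')]
  rcases neg_one_pow_eq_or W.K (dg a.1 * dg a'.1) with h | h
  · left; rw [h, one_smul]
  · right; rw [h, neg_one_smul]

/-- All morphisms in the list are projections. -/
def Proj {n : ℕ} (l : List (Fin f × (pw X n ⟶ X))) : Prop := ∀ a ∈ l, ∃ r, a.2 = pj X n r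

/-- A product is the pull-back of a product of pull-backs under projections. -/
lemma prd_block (v : Fin f → W.H X) {l : List (Fin f × (Z ⟶ X))} {m : ℕ}
    (hm : l.length = m + 1) :
    ∃ (g : Z ⟶ pw X m) (l' : List (Fin f × (pw X m ⟶ X))), Proj l' ∧ cnt l' = cnt l ∧
      W.map g (prd v l') = prd v l := by
  obtain ⟨F, rfl⟩ : ∃ F : Fin (m + 1) → Fin f × (Z ⟶ X), l = List.ofFn F := by
    rw [← hm]
    exact ⟨l.get, (List.ofFn_get l).symm⟩
  refine ⟨liftN X m (fun r => (F r).2), List.ofFn fun r => ((F r).1, pj X m r), ?_, ?_, ?_⟩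
  · intro a ha
    rw [List.mem_ofFn'] at ha
    obtain ⟨r, rfl⟩ := ha
    exact ⟨r, rfl⟩
  · funext i
    rw [cnt, cnt, List.map_ofFn, List.map_ofFn]
    rfl
  · rw [map_prd, List.map_ofFn]
    congr 2
    funext r
    simp only [Function.comp_apply]
    rw [liftN_pj]

/-- **Products whose numbers of factors belong to a set with small generators.** -/
theorem prd_closed (hv : ∀ i, v i ∈ W.gr X (dg i)) {C : ∀ Z : 𝒱.Obj, Set (W.H Z)}
    (hone : ∀ Z, (1 : W.H Z) ∈ C Z) (hneg : ∀ Z, ∀ x ∈ C Z, -x ∈ C Z)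
    (hmul : ∀ Z, ∀ x ∈ C Z, ∀ y ∈ C Z, x * y ∈ C Z)
    (hmap : ∀ (Y Z : 𝒱.Obj) (g : Y ⟶ Z), ∀ x ∈ C Z, W.map g x ∈ C Y)
    {M : Set (Fin f → ℕ)} {N : ℕ}
    (hsub : ∀ e ∈ M, ∀ m ∈ M, m ≤ e → e - m ∈ M)
    (hn : ∀ e ∈ M, e ≠ 0 → ∃ m ∈ M, m ≠ 0 ∧ m ≤ e ∧ ∑ i, m i ≤ N)
    (hC : ∀ m < N, ∀ l' : List (Fin f × (pw X m ⟶ X)), Proj l' → cnt l' ∈ M →
      prd v l' ∈ C (pw X m))
    (l : List (Fin f × (Z ⟶ X))) (hl : cnt l ∈ M) : prd v l ∈ C Z := by
  obtain ⟨LL, hL, hL2⟩ := UB.exists_blocks (Prod.fst : Fin f × (Z ⟶ X) → Fin f) M N hsub hn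
    l.length l le_rfl hl
  have h1 : prd v LL.flatten ∈ C Z := by
    clear hL
    induction LL with
    | nil => exact hone Z
    | cons l' LL ih =>
      rw [List.flatten_cons, prd_append]
      refine hmul _ _ ?_ _ (ih fun l'' h => hL2 l'' (List.mem_cons_of_mem _ h))
      obtain ⟨h2, h3, h4⟩ := hL2 l' List.mem_cons_self
      obtain ⟨m, hm⟩ : ∃ m, l'.length = m + 1 :=
        ⟨l'.length - 1, by have := List.length_pos_iff.2 h2; omega⟩
      obtain ⟨g, l'', hl1, hl2, hl3⟩ := prd_block v hm
      rw [← hl3]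
      refine hmap _ _ g _ (hC m (by omega) l'' hl1 ?_)
      rw [hl2]
      exact h4
  rcases prd_perm hv hL with h | h
  · rw [h]; exact h1
  · rw [h]; exact hneg _ _ h1

/-- The products of pull-backs of generators under projections span the cohomology. -/
lemma span_prd (hgen : Algebra.adjoin W.K (Set.range v) = ⊤) (n : ℕ) :
    Submodule.span W.K {c : W.H (pw X n) | ∃ l, Proj l ∧ prd v l = c} = ⊤ := by
  -- the factors
  have h0 : ∀ (n : ℕ) (i : Fin (n + 1)) (z : W.H X), W.map (pj X n i) z ∈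
      Submodule.span W.K {c : W.H (pw X n) | ∃ l, Proj l ∧ prd v l = c} := by
    intro n i z
    have hz : z ∈ Algebra.adjoin W.K (Set.range v) := by
      rw [hgen]; trivial
    rw [← Subalgebra.mem_toSubmodule, Algebra.adjoin_eq_span] at hz
    induction hz using Submodule.span_induction with
    | mem z hz =>
      obtain ⟨l, hl, rfl⟩ := Submonoid.exists_list_of_mem_closure hz
      clear hz
      refine Submodule.subset_span ?_
      induction l with
      | nil => exact ⟨[], fun a ha => absurd ha List.not_mem_nil, by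
          rw [List.prod_nil, map_one]; rfl⟩
      | cons a l ih =>
        obtain ⟨l', hl', hl2⟩ := ih fun y hy => hl y (List.mem_cons_of_mem _ hy)
        obtain ⟨j, rfl⟩ := hl a List.mem_cons_self
        refine ⟨(j, pj X n i) :: l', ?_, ?_⟩
        · intro a ha
          rcases List.mem_cons.1 ha with rfl | ha
          · exact ⟨i, rfl⟩
          · exact hl' a ha
        · rw [prd_cons, List.prod_cons, map_mul, hl2]
          rfl
    | zero => rw [map_zero]; exact Submodule.zero_mem _
    | add x y _ _ hx hy => rw [map_add]; exact Submodule.add_mem _ hx hy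
    | smul r x _ hx => rw [map_smul]; exact Submodule.smul_mem _ _ hx
  induction n with
  | zero =>
    rw [eq_top_iff]
    intro z _
    have h1 := h0 0 0 z
    have h2 : W.map (pj X 0 0) z = z := W.map_id X z
    rw [h2] at h1
    exact h1
  | succ n ih =>
    rw [eq_top_iff]
    intro z _
    refine W.kunneth_induction (p := fun z : W.H (X.prod (pw X n)) => z ∈ Submodule.span W.K
      {c : W.H (pw X (n + 1)) | ∃ l, Proj l ∧ prd v l = c}) ?_ ?_ z
    · intro a b ha hb
      exact Submodule.add_mem _ ha hb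
    · intro i j a _ b hbgr
      clear hbgr
      have h1 := h0 (n + 1) 0 a
      have hb : b ∈ Submodule.span W.K {c : W.H (pw X n) | ∃ l, Proj l ∧ prd v l = c} := by
        rw [ih]; trivial
      have h2 : W.map (snd X (pw X n)) b ∈ Submodule.span W.K
          {c : W.H (pw X (n + 1)) | ∃ l, Proj l ∧ prd v l = c} := by
        induction hb using Submodule.span_induction with
        | mem b hb =>
          obtain ⟨l, hl, rfl⟩ := hb
          rw [map_prd]
          refine Submodule.subset_span ⟨_, ?_, rfl⟩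
          intro a ha
          obtain ⟨a', ha', rfl⟩ := List.mem_map.1 ha
          obtain ⟨r, hr⟩ := hl a' ha'
          exact ⟨r.succ, by rw [hr]; rfl⟩
        | zero => rw [map_zero]; exact Submodule.zero_mem _
        | add x y _ _ hx hy => rw [map_add]; exact Submodule.add_mem _ hx hy
        | smul r x _ hx => rw [map_smul]; exact Submodule.smul_mem _ _ hx
      have h3 : ∀ x ∈ Submodule.span W.K
          {c : W.H (pw X (n + 1)) | ∃ l, Proj l ∧ prd v l = c},
          ∀ y ∈ Submodule.span W.K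
          {c : W.H (pw X (n + 1)) | ∃ l, Proj l ∧ prd v l = c},
          x * y ∈ Submodule.span W.K
          {c : W.H (pw X (n + 1)) | ∃ l, Proj l ∧ prd v l = c} := by
        intro x hx y hy
        induction hx using Submodule.span_induction with
        | mem x hx =>
          obtain ⟨l, hl, rfl⟩ := hx
          induction hy using Submodule.span_induction with
          | mem y hy =>
            obtain ⟨l', hl', rfl⟩ := hy
            refine Submodule.subset_span ⟨l ++ l', ?_, prd_append v l l'⟩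
            intro a ha
            rcases List.mem_append.1 ha with ha | ha
            · exact hl a ha
            · exact hl' a ha
          | zero => rw [mul_zero]; exact Submodule.zero_mem _
          | add x y _ _ hx hy => rw [mul_add]; exact Submodule.add_mem _ hx hy
          | smul r x _ hx => rw [mul_smul_comm]; exact Submodule.smul_mem _ _ hx
        | zero => rw [zero_mul]; exact Submodule.zero_mem _
        | add x y _ _ hx hy => rw [add_mul]; exact Submodule.add_mem _ hx hy
        | smul r x _ hx => rw [smul_mul_assoc]; exact Submodule.smul_mem _ _ hx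
      exact h3 _ h1 _ h2

/-- A basis of products. -/
lemma exists_basis (hgen : Algebra.adjoin W.K (Set.range v) = ⊤) (n : ℕ) :
    ∃ (r : ℕ) (e : Module.Basis (Fin r) W.K (W.H (pw X n)))
      (l : Fin r → List (Fin f × (pw X n ⟶ X))), ∀ i, Proj (l i) ∧ e i = prd v (l i) := by
  obtain ⟨g, hg, hg2, hg3⟩ := Submodule.exists_fun_fin_finrank_span_eq W.K
    {c : W.H (pw X n) | ∃ l, Proj l ∧ prd v l = c}
  have htop : Submodule.span W.K (Set.range g) = ⊤ := by rw [hg2, span_prd hgen]
  choose l hl hl2 using hg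
  refine ⟨_, Module.Basis.mk hg3 (by rw [htop]), l, fun i => ⟨hl i, ?_⟩⟩
  rw [Module.Basis.mk_apply, hl2]

/-- The solutions of homogeneous linear equations with coefficients bounded by `c`. -/
def sols (T : Set (Fin f → ℤ)) : Set (Fin f → ℕ) := {e | ∀ s ∈ T, ∑ i, s i * (e i : ℤ) = 0}

lemma sols_sub {T : Set (Fin f → ℤ)} : ∀ e ∈ sols T, ∀ m ∈ sols T, m ≤ e → e - m ∈ sols T := by
  intro e he m hm hme s hs
  have h1 : ∀ i, s i * ((e - m) i : ℕ) = s i * (e i : ℤ) - s i * (m i : ℤ) := by
    intro i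
    rw [Pi.sub_apply, Nat.cast_sub (hme i)]
    ring
  calc ∑ i, s i * (((e - m) i : ℕ) : ℤ) = ∑ i, (s i * (e i : ℤ) - s i * (m i : ℤ)) :=
        Finset.sum_congr rfl fun i _ => h1 i
    _ = 0 := by rw [Finset.sum_sub_distrib, he s hs, hm s hs, sub_zero]

/-- The bound for the number of factors. -/
def bound (f c : ℕ) : ℕ := f ^ 2 * (f * max c 1) ^ f

lemma sols_small {T : Set (Fin f → ℤ)} {c : ℕ} (hT : ∀ s ∈ T, ∀ i, |s i| ≤ c) :
    ∀ e ∈ sols T, e ≠ 0 → ∃ m ∈ sols T, m ≠ 0 ∧ m ≤ e ∧ ∑ i, m i ≤ bound f c := by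
  intro e he he0
  set T' : Set (Fin f → ℤ) := T ∪ (Neg.neg '' T) ∪ Set.range fun i => Pi.single i 1 with hT'
  have hb : ∀ s ∈ T', ∀ i, |s i| ≤ ((max c 1 : ℕ) : ℤ) := by
    rintro s ((hs | ⟨s, hs, rfl⟩) | ⟨j, rfl⟩) i
    · exact (hT s hs i).trans (by exact_mod_cast le_max_left c 1)
    · rw [Pi.neg_apply, abs_neg]
      exact (hT s hs i).trans (by exact_mod_cast le_max_left c 1)
    · by_cases hij : i = j
      · subst hij
        simp
      · simp [Pi.single_eq_of_ne hij]
  have hmem : ∀ e : Fin f → ℕ, e ∈ Cone.pts T' ↔ e ∈ sols T := by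
    intro e
    constructor
    · intro h s hs
      have h1 := h s (Or.inl (Or.inl hs))
      have h2 := h (-s) (Or.inl (Or.inr ⟨s, hs, rfl⟩))
      have h3 : ∑ i, (-s) i * (e i : ℤ) = - ∑ i, s i * (e i : ℤ) := by
        rw [← Finset.sum_neg_distrib]
        exact Finset.sum_congr rfl fun i _ => by rw [Pi.neg_apply]; ring
      rw [h3] at h2
      omega
    · rintro h s ((hs | ⟨s, hs, rfl⟩) | ⟨j, rfl⟩)
      · exact (h s hs).ge
      · have h3 : ∑ i, (-s) i * (e i : ℤ) = - ∑ i, s i * (e i : ℤ) := by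
          rw [← Finset.sum_neg_distrib]
          exact Finset.sum_congr rfl fun i _ => by rw [Pi.neg_apply]; ring
        rw [h3, h s hs, neg_zero]
      · exact Finset.sum_nonneg fun i _ => mul_nonneg (by
          by_cases hij : i = j
          · subst hij; simp
          · simp [Pi.single_eq_of_ne hij]) (Nat.cast_nonneg _)
  obtain ⟨m, hm, hm0, hme, -, hm2⟩ := Cone.exists_small_le (T := T') (A := max c 1)
    (le_max_right _ _) hb (fun i => Or.inr ⟨i, rfl⟩) ((hmem e).2 he) he0
  refine ⟨m, (hmem m).1 hm, hm0, hme, ?_⟩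
  calc ∑ i, m i ≤ ∑ _i : Fin f, f * (f * max c 1) ^ f := Finset.sum_le_sum fun i _ => hm2 i
    _ = bound f c := by
      rw [Finset.sum_const, Finset.card_univ, Fintype.card_fin, smul_eq_mul, bound]
      ring

end Pool.Agent.X297.BT
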