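import Pool.Agent.X297.BT.TateDefs
import Pool.Agent.X297.BT.Blocks
import Pool.Agent.X297.GT.Main

/-!
# The Tate conjecture for all powers of a variety over a number field with abelian Galois
# representations
-/

open CategoryTheory AlgebraicGeometry

universe u v w

namespace Pool.Agent.X297.BT

open Pool.Agent.H914 Pool.Agent.H914.VarClass Pool.Agent.H914.VarClass.Obj
  Pool.Agent.H914.WeilCohomology Pool.Agent.H281R3.HT Pool.Agent.TH125.Gal Pool.Agent.X297.TIL
  Pool.Agent.X297.GT Pool.Agent.W536.RR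
open Pool.Agent.Y129 (pw pj liftN liftN_pj tateClasses)

namespace WeightSystem

variable {C : Type w} [CommGroup C] {χ : C} {S : Type} (H : WeightSystem χ S)

lemma wt_one : H.wt 1 = 0 := by
  have h := H.mul 1 H.L.one_mem 1 H.L.one_mem
  rw [one_mul] at h
  exact left_eq_add.1 h

lemma wt_pow {ψ : C} (hψ : ψ ∈ H.L) (n : ℕ) : H.wt (ψ ^ n) = n • H.wt ψ := by
  induction n with
  | zero => rw [pow_zero, wt_one, zero_smul]
  | succ n ih => rw [pow_succ, H.mul _ (H.L.pow_mem hψ n) _ hψ, ih, succ_nsmul]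

lemma wt_inv {ψ : C} (hψ : ψ ∈ H.L) : H.wt ψ⁻¹ = - H.wt ψ := by
  have h := H.mul ψ hψ ψ⁻¹ (H.L.inv_mem hψ)
  rw [mul_inv_cancel, wt_one] at h
  exact (neg_eq_of_add_eq_zero_right h.symm).symm

/-- The elements all of whose weights are `j`. -/
lemma finite_iff {ψ : C} (hψ : ψ ∈ H.L) (j : ℕ) :
    (∃ m, 0 < m ∧ ψ ^ m = (χ ^ j) ^ m) ↔ ∀ σ, H.wt ψ σ = j := by
  constructor
  · rintro ⟨m, hm, h⟩ σ
    have h1 : H.wt (ψ ^ m) σ = H.wt ((χ ^ j) ^ m) σ := by rw [h]
    rw [H.wt_pow hψ, H.wt_pow (H.L.pow_mem H.mem j), H.wt_pow H.mem, Pi.smul_apply, Pi.smul_apply,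
      Pi.smul_apply, H.one σ, nsmul_eq_mul, nsmul_eq_mul, nsmul_eq_mul, mul_one] at h1
    exact mul_left_cancel₀ (by exact_mod_cast hm.ne') h1
  · intro h
    have h1 : ψ * (χ ^ j)⁻¹ ∈ H.L := H.L.mul_mem hψ (H.L.inv_mem (H.L.pow_mem H.mem j))
    obtain ⟨m, hm, h2⟩ := H.fin _ h1 (by
      intro σ
      rw [H.mul _ hψ _ (H.L.inv_mem (H.L.pow_mem H.mem j)), Pi.add_apply,
        H.wt_inv (H.L.pow_mem H.mem j), Pi.neg_apply, H.wt_pow H.mem, Pi.smul_apply, H.one σ,
        nsmul_eq_mul, mul_one, h σ, add_neg_cancel])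
    refine ⟨m, hm, ?_⟩
    rwa [mul_pow, inv_pow, mul_inv_eq_one] at h2

end WeightSystem

variable {k : Type u} [Field k] {𝒱 : VarClass k} {ops : CycleOps 𝒱}
  {W : WeilCohomology.{u, v} ops} {X : 𝒱.Obj} {Γ : Type w} [Group Γ] {χ : Γ →* W.Kˣ}
  {G : GaloisPowers W X Γ χ} {Δ : Subgroup Γ} {S : Type}
  {H : WeightSystem (χ.comp Δ.subtype) S} {f c : ℕ}

/-- The generators. -/
structure Gens (G : GaloisPowers W X Γ χ) (Δ : Subgroup Γ)
    (H : WeightSystem (χ.comp Δ.subtype) S) (f c : ℕ) where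
  v : Fin f → W.H X
  dg : Fin f → ℕ
  ps : Fin f → (Δ →* W.Kˣ)
  gen : Algebra.adjoin W.K (Set.range v) = ⊤
  mem : ∀ i, v i ∈ W.gr X (dg i)
  eig : ∀ i, IsEigen (A := W.H X) (G.act 0) Δ (ps i) (v i)
  hodge : ∀ i, ps i ∈ H.L
  bd : ∀ i σ, |2 * H.wt (ps i) σ - dg i| ≤ c

namespace Gens

variable (B : Gens G Δ H f c)

/-- The character of a product. -/
def ch {Z : 𝒱.Obj} (l : List (Fin f × (Z ⟶ X))) : Δ →* W.Kˣ := (l.map fun a => B.ps a.1).prod

lemma ch_mem {Z : 𝒱.Obj} (l : List (Fin f × (Z ⟶ X))) : B.ch l ∈ H.L := by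
  apply Subgroup.list_prod_mem
  intro x hx
  obtain ⟨a, -, rfl⟩ := List.mem_map.1 hx
  exact B.hodge _

lemma eig_prd {n : ℕ} {l : List (Fin f × (pw X n ⟶ X))} (hl : Proj l) (g : Δ) :
    G.act n g (prd B.v l) = (B.ch l g : W.K) • prd B.v l := by
  induction l with
  | nil => simp [prd_nil, ch]
  | cons a l ih =>
    obtain ⟨r, hr⟩ := hl a List.mem_cons_self
    have h1 : G.act n g (val B.v a) = (B.ps a.1 g : W.K) • val B.v a := by
      rw [val, hr]
      exact (G.isAct.proj n r g (B.v a.1)).trans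
        ((congrArg (W.map (pj X n r)) (B.eig a.1 g)).trans (map_smul _ _ _))
    have h2 : B.ch (a :: l) = B.ps a.1 * B.ch l := by
      rw [ch, List.map_cons, List.prod_cons, ch]
    rw [prd_cons, map_mul, ih fun b hb => hl b (List.mem_cons_of_mem _ hb), h1, h2,
      MonoidHom.mul_apply, Units.val_mul, smul_mul_smul_comm]

/-- The sum of the expressions `2 a - i`. -/
lemma sum_wt {Z : 𝒱.Obj} (l : List (Fin f × (Z ⟶ X))) (σ : S) :
    2 * H.wt (B.ch l) σ - ((l.map fun a => B.dg a.1).sum : ℕ) =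
      ∑ i, (2 * H.wt (B.ps i) σ - B.dg i) * (cnt l i : ℤ) := by
  induction l with
  | nil => simp [ch, H.wt_one, cnt]
  | cons a l ih =>
    have h1 : H.wt (B.ch (a :: l)) σ = H.wt (B.ps a.1) σ + H.wt (B.ch l) σ := by
      rw [ch, List.map_cons, List.prod_cons]
      exact congrFun (H.mul _ (B.hodge _) _ (B.ch_mem l)) σ
    have h2 : ∀ i, (cnt (a :: l) i : ℤ) = cnt l i + if a.1 = i then 1 else 0 := by
      intro i
      rw [cnt, List.map_cons, List.count_cons, cnt]
      by_cases h : a.1 = i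
      · simp [h]
      · simp [h]
    simp only [h2, mul_add, Finset.sum_add_distrib, mul_ite, mul_one, mul_zero,
      Finset.sum_ite_eq, Finset.mem_univ, if_true]
    rw [← ih, h1]
    simp only [List.map_cons, List.sum_cons]
    push_cast
    ring

/-- The linear forms. -/
def forms : Set (Fin f → ℤ) := Set.range fun σ i => 2 * H.wt (B.ps i) σ - B.dg i

lemma forms_le : ∀ s ∈ B.forms, ∀ i, |s i| ≤ c := by
  rintro _ ⟨σ, rfl⟩ i
  exact B.bd i σ

lemma mem_sols {Z : 𝒱.Obj} (l : List (Fin f × (Z ⟶ X))) : cnt l ∈ sols B.forms ↔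
    ∀ σ, 2 * H.wt (B.ch l) σ = ((l.map fun a => B.dg a.1).sum : ℕ) := by
  constructor
  · intro h σ
    have h1 := h _ ⟨σ, rfl⟩
    rw [← B.sum_wt] at h1
    omega
  · rintro h _ ⟨σ, rfl⟩
    rw [← B.sum_wt, h σ, sub_self]

/-- The products which are Tate classes. -/
lemma isTate [Nonempty S] (hΔ : Δ.FiniteIndex) {n : ℕ} {l : List (Fin f × (pw X n ⟶ X))}
    (hl : Proj l) (h : cnt l ∈ sols B.forms) : ∃ j, G.IsTateClass n j (prd B.v l) := by
  rw [B.mem_sols] at h
  obtain ⟨σ₀⟩ := ‹Nonempty S›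
  have h0 := h σ₀
  obtain ⟨j, hj⟩ : ∃ j : ℕ, (l.map fun a => B.dg a.1).sum = 2 * j :=
    ⟨(l.map fun a => B.dg a.1).sum / 2, by omega⟩
  have h1 : ∀ σ, H.wt (B.ch l) σ = j := by
    intro σ
    have := h σ
    rw [hj] at this
    push_cast at this
    omega
  obtain ⟨m, hm, h2⟩ := (H.finite_iff (B.ch_mem l) j).2 h1
  obtain ⟨Δ', hΔ', h3⟩ := (finite_order_iff (W := W) hΔ (B.ch l) ((χ.comp Δ.subtype) ^ j)).1
    ⟨m, hm, fun g => DFunLike.congr_fun h2 g⟩
  refine ⟨j, ?_, Δ ⊓ Δ', inferInstance, ?_⟩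
  · rw [← hj]
    exact prd_mem B.mem l
  · rintro g ⟨hg1, hg2⟩
    have h4 := B.eig_prd hl ⟨g, hg1⟩
    rw [h3 ⟨g, hg1⟩ hg2] at h4
    exact h4

/-- The support of a Tate class. -/
lemma of_tate (hΔ : Δ.FiniteIndex) {n r : ℕ} (e : Module.Basis (Fin r) W.K (W.H (pw X n)))
    {l : Fin r → List (Fin f × (pw X n ⟶ X))} (he : ∀ i, Proj (l i) ∧ e i = prd B.v (l i))
    {j : ℕ} {x : W.H (pw X n)} (hx : G.IsTateClass n j x) {i : Fin r} (hi : e.repr x i ≠ 0) :
    cnt (l i) ∈ sols B.forms := by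
  classical
  obtain ⟨hx1, Δ', hΔ', hx2⟩ := hx
  have hdeg : (l i |>.map fun a => B.dg a.1).sum = 2 * j := by
    by_contra hne
    apply hi
    have h1 : x = ∑ y, if ((l y).map fun a => B.dg a.1).sum = 2 * j then e.repr x y • e y
        else 0 := by
      conv_lhs => rw [← proj_same (W.isInternal (pw X n)) hx1, ← e.sum_repr x]
      rw [map_sum]
      refine Finset.sum_congr rfl fun y _ => ?_
      rw [map_smul]
      have h2 : e y ∈ W.gr (pw X n) ((l y).map fun a => B.dg a.1).sum := by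
        rw [(he y).2]; exact prd_mem B.mem _
      by_cases hy : ((l y).map fun a => B.dg a.1).sum = 2 * j
      · rw [if_pos hy]
        rw [hy] at h2
        rw [proj_same _ h2]
      · rw [if_neg hy, proj_ne _ h2 hy, smul_zero]
    have h3 := congrArg (fun z => e.repr z i) h1
    simp only [map_sum, Finsupp.finsetSum_apply] at h3
    rw [h3, Finset.sum_eq_zero]
    intro y _
    by_cases hy : ((l y).map fun a => B.dg a.1).sum = 2 * j
    · rw [if_pos hy, map_smul, Finsupp.smul_apply, e.repr_self, Finsupp.single_eq_of_ne,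
        smul_zero]
      rintro rfl
      exact hne hy
    · rw [if_neg hy, map_zero, Finsupp.zero_apply]
  rw [B.mem_sols]
  have h0 : ∃ m, 0 < m ∧ ∀ g : Δ, (B.ch (l i)) g ^ m = (χ g ^ j) ^ m := by
    refine (finite_order_iff (W := W) hΔ (B.ch (l i)) ((χ.comp Δ.subtype) ^ j)).2
      ⟨Δ', hΔ', fun g hg => ?_⟩
    have h1 := hx2 g hg
    have h2 : e.repr (G.act n g x) i = (B.ch (l i) g : W.K) * e.repr x i := by
      conv_lhs => rw [← e.sum_repr x]
      rw [map_sum, map_sum, Finsupp.finsetSum_apply, Finset.sum_eq_single i]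
      · rw [map_smul, (he i).2, B.eig_prd (he i).1, ← (he i).2, map_smul, map_smul,
          Finsupp.smul_apply, Finsupp.smul_apply, e.repr_self, Finsupp.single_eq_same,
          smul_eq_mul, smul_eq_mul, mul_one, mul_comm]
      · intro y _ hy
        rw [map_smul, (he y).2, B.eig_prd (he y).1, ← (he y).2, map_smul, map_smul,
          Finsupp.smul_apply, Finsupp.smul_apply, e.repr_self,
          Finsupp.single_eq_of_ne (Ne.symm hy), smul_zero, smul_zero]
      · intro h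
        exact absurd (Finset.mem_univ _) h
    rw [h1, map_smul, Finsupp.smul_apply, smul_eq_mul] at h2
    have h3 := mul_right_cancel₀ hi h2
    apply Units.ext
    rw [← h3]
    simp
  obtain ⟨m, hm, h0⟩ := h0
  have h1 := (H.finite_iff (B.ch_mem (l i)) j).1 ⟨m, hm, MonoidHom.ext h0⟩
  intro σ
  rw [h1 σ, hdeg]
  push_cast
  ring

include B in
/-- The Tate conjecture for all powers, if the solutions have small generators. -/
theorem tate_all' [Nonempty S] (hΔ : Δ.FiniteIndex) {N : ℕ}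
    (hn : ∀ e ∈ sols B.forms, e ≠ 0 → ∃ m ∈ sols B.forms, m ≠ 0 ∧ m ≤ e ∧ ∑ i, m i ≤ N)
    (h : ∀ m < N, G.TateFor m) (n : ℕ) : G.TateFor n := by
  intro j x hx
  obtain ⟨r, e, l, he⟩ := exists_basis B.gen n
  rw [← e.sum_repr x]
  refine Submodule.sum_mem _ fun i _ => ?_
  by_cases hi : e.repr x i = 0
  · rw [hi, zero_smul]
    exact Submodule.zero_mem _
  refine Submodule.smul_mem _ _ ?_
  rw [(he i).2]
  refine prd_closed (C := fun Z => {z : W.H Z | z ∈ algSpan W Z}) B.mem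
    (fun Z => one_mem_algSpan) (fun Z x hx => Submodule.neg_mem (algSpan W Z) hx)
    (fun Z x hx y hy => algSpan_mul hx hy) (fun Y Z g x hx => algSpan_map g hx)
    (M := sols B.forms) (N := N) sols_sub hn ?_ (l i)
    (B.of_tate hΔ e he hx hi)
  intro m hm l' hl' hM
  obtain ⟨j', hj'⟩ := B.isTate hΔ hl' hM
  exact h m hm j' _ hj'

include B in
/-- **The Tate conjecture for all powers.** -/
theorem tate_all [Nonempty S] (hΔ : Δ.FiniteIndex) (h : ∀ m < bound f c, G.TateFor m) (n : ℕ) :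
    G.TateFor n := B.tate_all' hΔ (sols_small B.forms_le) h n

end Gens

lemma exists_gens (h : IsGeneratedBy (A := W.H X) H (W.gr X) (G.act 0) f c) :
    Nonempty (Gens G Δ H f c) := by
  obtain ⟨v, hv, h⟩ := h
  choose d ψ h1 h2 h3 using h
  exact ⟨⟨v, d, ψ, hv, h1, h2, fun i => (h3 i).1, fun i σ => (h3 i).2 σ⟩⟩

/-- The whole cohomology as a set of generators. -/
lemma isGeneratedBy (hX : IsToric G Δ)
    (h : HasHodgeTateWeights (A := W.H X) H (W.gr X) (G.act 0) X.dim) :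
    IsGeneratedBy (A := W.H X) H (W.gr X) (G.act 0) (Module.finrank W.K (W.H X)) X.dim := by
  obtain ⟨B⟩ := exists_GB hX
  refine ⟨B.v, ?_, fun i => ⟨B.dg i, B.ps i, B.mem i, B.eig i, ?_⟩⟩
  · rw [eq_top_iff]
    intro x _
    have h1 : x ∈ Submodule.span W.K (Set.range B.v) := by rw [B.v.span_eq]; trivial
    exact Algebra.span_le_adjoin W.K _ h1
  · have h1 := h (B.dg i) (B.ps i) (B.v i) (B.mem i) (B.v.ne_zero i) (B.eig i)
    refine ⟨h1.1, fun σ => ?_⟩
    obtain ⟨h2, h3, h4, h5⟩ := h1.2 σ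
    rw [abs_le]
    constructor <;> omega

/-- **The Tate conjecture for all powers follows from the powers with few factors.** -/
theorem main [Nonempty S] (hX : Δ.FiniteIndex) :
    (∀ f c, IsGeneratedBy (A := W.H X) H (W.gr X) (G.act 0) f c →
      (∀ m < powersBound f c, G.TateFor m) → ∀ n, G.TateFor n) ∧
    (IsToric G Δ → HasHodgeTateWeights (A := W.H X) H (W.gr X) (G.act 0) X.dim →
      IsGeneratedBy (A := W.H X) H (W.gr X) (G.act 0) (Module.finrank W.K (W.H X)) X.dim) := by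
  refine ⟨fun f c hg h n => ?_, fun h1 h2 => isGeneratedBy h1 h2⟩
  obtain ⟨B⟩ := exists_gens hg
  exact B.tate_all hX h n

end Pool.Agent.X297.BT
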