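import Pool.Agent.X297.BT.AbDefs
import Pool.Agent.X297.BT.Paired
import Pool.Agent.X297.BT.Tate

/-!
# The Tate conjecture for all powers of an abelian variety with potential complex multiplication
-/

open CategoryTheory AlgebraicGeometry

universe u v w

namespace Pool.Agent.X297.BT

open Pool.Agent.H914 Pool.Agent.H914.VarClass Pool.Agent.H914.VarClass.Obj
  Pool.Agent.H914.WeilCohomology Pool.Agent.H281R3.HT Pool.Agent.TH125.Gal Pool.Agent.X297.TIL
  Pool.Agent.X297.GT Pool.Agent.W536.RR
open Pool.Agent.Y129 (pw pj liftN liftN_pj tateClasses)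

variable {k : Type u} [Field k] {𝒱 : VarClass k} {ops : CycleOps 𝒱}
  {W : WeilCohomology.{u, v} ops} {X : 𝒱.Obj} {Γ : Type w} [Group Γ] {χ : Γ →* W.Kˣ}
  {G : GaloisPowers W X Γ χ} {Δ : Subgroup Γ} {S : Type}
  {H : WeightSystem (χ.comp Δ.subtype) S} {f c : ℕ}

/-- The generators. -/
lemma exists_gens_ab {g : ℕ} (h : IsCMAbelian (A := W.H X) H (W.gr X) (G.act 0) g) :
    ∃ B : Gens G Δ H (g + g) 1, ∃ bar : Fin (g + g) → Fin (g + g), (∀ i, bar (bar i) = i) ∧
      (∀ i, bar i ≠ i) ∧ ∀ s ∈ B.forms, ∀ i, s (bar i) = -s i := by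
  obtain ⟨v, v', hgen, hv⟩ := h
  choose h1 h1' ψ ψ' h2 h2' h3 h4 h5 using hv
  have h4' : ∀ i, ψ' i ∈ H.L := by
    intro i
    have h6 : ψ' i = (ψ i)⁻¹ * χ.comp Δ.subtype := by
      rw [← h3 i]
      refine MonoidHom.ext fun x => ?_
      rw [MonoidHom.mul_apply, MonoidHom.mul_apply, MonoidHom.inv_apply, inv_mul_cancel_left]
    rw [h6]
    exact H.L.mul_mem (H.L.inv_mem (h4 i)) H.mem
  have h6 : ∀ i σ, H.wt (ψ' i) σ = 1 - H.wt (ψ i) σ := by
    intro i σ
    have h7 := H.mul _ (h4 i) _ (h4' i)
    rw [h3] at h7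
    have h8 := congrFun h7 σ
    rw [H.one σ, Pi.add_apply] at h8
    omega
  let e : Fin g ⊕ Fin g ≃ Fin (g + g) := finSumFinEquiv
  let vv : Fin (g + g) → W.H X := fun i => Sum.elim v v' (e.symm i)
  let ps : Fin (g + g) → (Δ →* W.Kˣ) := fun i => Sum.elim ψ ψ' (e.symm i)
  let B : Gens G Δ H (g + g) 1 :=
    { v := vv
      dg := fun _ => 1
      ps := ps
      gen := by
        rw [← hgen]
        congr 1
        ext x
        constructor
        · rintro ⟨i, rfl⟩
          obtain ⟨a, rfl⟩ := e.surjective i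
          change Sum.elim v v' (e.symm (e a)) ∈ _
          rw [e.symm_apply_apply]
          rcases a with a | a
          · exact Or.inl ⟨a, rfl⟩
          · exact Or.inr ⟨a, rfl⟩
        · rintro (⟨a, rfl⟩ | ⟨a, rfl⟩)
          · exact ⟨e (Sum.inl a), by
              change Sum.elim v v' (e.symm (e (Sum.inl a))) = _
              rw [e.symm_apply_apply]; rfl⟩
          · exact ⟨e (Sum.inr a), by
              change Sum.elim v v' (e.symm (e (Sum.inr a))) = _
              rw [e.symm_apply_apply]; rfl⟩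
      mem := by
        intro i
        change Sum.elim v v' (e.symm i) ∈ _
        rcases e.symm i with a | a
        · exact h1 a
        · exact h1' a
      eig := by
        intro i
        change IsEigen (A := W.H X) (G.act 0) Δ (Sum.elim ψ ψ' (e.symm i))
          (Sum.elim v v' (e.symm i))
        rcases e.symm i with a | a
        · exact h2 a
        · exact h2' a
      hodge := by
        intro i
        change Sum.elim ψ ψ' (e.symm i) ∈ _
        rcases e.symm i with a | a
        · exact h4 a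
        · exact h4' a
      bd := by
        intro i σ
        change |2 * H.wt (Sum.elim ψ ψ' (e.symm i)) σ - ((1 : ℕ) : ℤ)| ≤ ((1 : ℕ) : ℤ)
        rcases e.symm i with a | a
        · rw [Sum.elim_inl]
          rcases h5 a σ with h | h <;> rw [h] <;> decide
        · rw [Sum.elim_inr, h6]
          rcases h5 a σ with h | h <;> rw [h] <;> decide }
  refine ⟨B, fun i => e (e.symm i).swap, fun i => ?_, fun i hi => ?_, ?_⟩
  · change e (e.symm (e (e.symm i).swap)).swap = i
    rw [e.symm_apply_apply, Sum.swap_swap, e.apply_symm_apply]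
  · change e (e.symm i).swap = i at hi
    have h7 := congrArg e.symm hi
    rw [e.symm_apply_apply] at h7
    rcases h8 : e.symm i with a | a <;> rw [h8] at h7 <;> simp at h7
  · rintro _ ⟨σ, rfl⟩ i
    change 2 * H.wt (Sum.elim ψ ψ' (e.symm (e (e.symm i).swap))) σ - ((1 : ℕ) : ℤ) =
      -(2 * H.wt (Sum.elim ψ ψ' (e.symm i)) σ - ((1 : ℕ) : ℤ))
    rw [e.symm_apply_apply]
    rcases e.symm i with a | a
    · rw [Sum.swap_inl, Sum.elim_inr, Sum.elim_inl, h6]
      push_cast
      ring
    · rw [Sum.swap_inr, Sum.elim_inr, Sum.elim_inl, h6]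
      push_cast
      ring

/-- **The Tate conjecture for all powers of a potentially CM abelian variety of dimension `g` follows
from the powers with at most `max 2 (g ^ (g + 2))` factors.** -/
theorem main_ab [Nonempty S] (hX : Δ.FiniteIndex) {g : ℕ}
    (h : IsCMAbelian (A := W.H X) H (W.gr X) (G.act 0) g)
    (hT : ∀ m < max 2 (g ^ (g + 2)), G.TateFor m) (n : ℕ) : G.TateFor n := by
  obtain ⟨B, bar, h1, h2, h3⟩ := exists_gens_ab h
  have h4 : bound g 1 = g ^ (g + 2) := by
    rw [bound, max_self, mul_one]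
    ring
  refine B.tate_all' hX (N := max 2 (g ^ (g + 2))) ?_ hT n
  rw [← h4]
  exact sols_small_paired (by omega) B.forms_le h1 h2 h3

end Pool.Agent.X297.BT
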