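import Pool.Agent.X297.BT.TateDefs

/-!
# Abelian varieties with potential complex multiplication: definitions
-/

open CategoryTheory AlgebraicGeometry

universe u v w

namespace Pool.Agent.X297.BT

variable {K : Type v} [Field K] {A : Type v} [Ring A] [Algebra K A] {Γ : Type w} [Group Γ]

/-- The algebra `A` is generated by elements `v i`, `v' i` of degree one, `i = 1, …, g`, which are
eigenvectors of `Δ` with characters whose product is `χ` (for the Weil pairing of a polarization),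
and the characters have weights `0` and `1`. -/
def IsCMAbelian {χ : Γ →* Kˣ} {Δ : Subgroup Γ} {S : Type}
    (H : WeightSystem (χ.comp Δ.subtype) S) (gr : ℕ → Submodule K A) (ρ : Γ →* (A ≃ₐ[K] A))
    (g : ℕ) : Prop :=
  ∃ v v' : Fin g → A, Algebra.adjoin K (Set.range v ∪ Set.range v') = ⊤ ∧
    ∀ i, v i ∈ gr 1 ∧ v' i ∈ gr 1 ∧ ∃ ψ ψ', GT.IsEigen ρ Δ ψ (v i) ∧ GT.IsEigen ρ Δ ψ' (v' i) ∧
      ψ * ψ' = χ.comp Δ.subtype ∧ ψ ∈ H.L ∧ ∀ σ, H.wt ψ σ = 0 ∨ H.wt ψ σ = 1

end Pool.Agent.X297.BT
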