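import Pool.Agent.X297.BT.HodgeDefs
import Pool.Agent.X297.BT.Paired
import Pool.Agent.X297.CM.All
import Pool.Agent.X297.CM.Gen

/-!
# Hodge classes on the powers of a variety of CM type
-/

open CategoryTheory AlgebraicGeometry

universe u v w

namespace Pool.Agent.X297.BT

open Pool.Agent.H914 Pool.Agent.H914.VarClass Pool.Agent.H914.VarClass.Obj
  Pool.Agent.H914.WeilCohomology Pool.Agent.H281R3.HT Pool.Agent.X297.CM
open Pool.Agent.Y129 (pw pj)

variable {k : Type u} [Field k] {𝒱 : VarClass k} {ops : CycleOps 𝒱}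
  {W : WeilCohomology.{u, v} ops} {Γ : Type w} [Group Γ] {X Y Z : 𝒱.Obj}
  {D : Decomposition W} {A : CoeffAction W Γ} {f c : ℕ}

/-- The generators. -/
structure HGens (D : Decomposition W) (A : CoeffAction W Γ) (X : 𝒱.Obj) (f c : ℕ) where
  v : Fin f → W.H X
  dg : Fin f → ℕ
  t : Fin f → Γ → ℕ × ℕ
  gen : Algebra.adjoin W.K (Set.range v) = ⊤
  gr : ∀ i, v i ∈ W.gr X (dg i)
  mem : ∀ i s, A.act s X (v i) ∈ D.hd X (t i s).1 (t i s).2
  deg : ∀ i s, (t i s).1 + (t i s).2 = dg i
  bd : ∀ i s, |((t i s).1 : ℤ) - (t i s).2| ≤ c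

namespace HGens

variable (B : HGens D A X f c)

/-- The type of a product. -/
def tp (l : List (Fin f × (Z ⟶ X))) (s : Γ) : ℕ × ℕ :=
  ((l.map fun a => (B.t a.1 s).1).sum, (l.map fun a => (B.t a.1 s).2).sum)

lemma tp_mem (l : List (Fin f × (Z ⟶ X))) (s : Γ) :
    A.act s Z (prd B.v l) ∈ D.hd Z (B.tp l s).1 (B.tp l s).2 := by
  induction l with
  | nil =>
    have h1 : (1 : W.H Z) ∈ D.hd Z 0 0 := by
      rw [← W.cl_fund]
      exact D.cl Z.V.fundCycle_mem
    rw [prd_nil, act_one_eq]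
    exact h1
  | cons a l ih =>
    rw [prd_cons, A.mul]
    simp only [tp, List.map_cons, List.sum_cons]
    refine D.mul ?_ ih
    rw [val, A.map]
    exact D.map _ (B.mem _ _)

lemma tp_deg (l : List (Fin f × (Z ⟶ X))) (s : Γ) :
    (B.tp l s).1 + (B.tp l s).2 = (l.map fun a => B.dg a.1).sum := by
  induction l with
  | nil => rfl
  | cons a l ih =>
    simp only [tp, List.map_cons, List.sum_cons] at ih ⊢
    have := B.deg a.1 s
    omega

/-- The sum of the differences. -/
lemma sum_tp (l : List (Fin f × (Z ⟶ X))) (s : Γ) :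
    ((B.tp l s).1 : ℤ) - (B.tp l s).2 =
      ∑ i, (((B.t i s).1 : ℤ) - (B.t i s).2) * (cnt l i : ℤ) := by
  induction l with
  | nil => simp [tp, cnt]
  | cons a l ih =>
    have h2 : ∀ i, (cnt (a :: l) i : ℤ) = cnt l i + if a.1 = i then 1 else 0 := by
      intro i
      rw [cnt, List.map_cons, List.count_cons, cnt]
      by_cases h : a.1 = i
      · simp [h]
      · simp [h]
    simp only [h2, mul_add, Finset.sum_add_distrib, mul_ite, mul_one, mul_zero,
      Finset.sum_ite_eq, Finset.mem_univ, if_true]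
    rw [← ih]
    simp only [tp, List.map_cons, List.sum_cons]
    push_cast
    ring

/-- The linear forms. -/
def forms : Set (Fin f → ℤ) := Set.range fun (s : Γ) i => ((B.t i s).1 : ℤ) - (B.t i s).2

lemma forms_le : ∀ s ∈ B.forms, ∀ i, |s i| ≤ c := by
  rintro _ ⟨s, rfl⟩ i
  exact B.bd i s

lemma mem_sols (l : List (Fin f × (Z ⟶ X))) : cnt l ∈ sols B.forms ↔
    ∀ s, (B.tp l s).1 = (B.tp l s).2 := by
  constructor
  · intro h s
    have h1 := h _ ⟨s, rfl⟩
    rw [← B.sum_tp] at h1
    omega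
  · rintro h _ ⟨s, rfl⟩
    rw [← B.sum_tp, h s, sub_self]

/-- The products which are combinations of Hodge classes. -/
lemma prd_hodge {l : List (Fin f × (Z ⟶ X))} (h : cnt l ∈ sols B.forms) :
    ∃ j, prd B.v l ∈ HC D A Z j := by
  rw [B.mem_sols] at h
  refine ⟨(B.tp l 1).1, fun s => ?_⟩
  have h1 := B.tp_mem l s
  have h2 := h s
  have h3 := h 1
  have h4 := B.tp_deg l s
  have h5 := B.tp_deg l 1
  have h6 : (B.tp l s).1 = (B.tp l 1).1 := by omega
  have h7 : (B.tp l s).2 = (B.tp l 1).1 := by omega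
  rw [h6, h7] at h1
  exact h1

include B in
/-- **Hodge classes on all powers.** -/
theorem hodge_all {N : ℕ}
    (hn : ∀ e ∈ sols B.forms, e ≠ 0 → ∃ m ∈ sols B.forms, m ≠ 0 ∧ m ≤ e ∧ ∑ i, m i ≤ N)
    (P : ClassSystem W) (h : ∀ m < N, HodgeIn D A P (pw X m)) (n : ℕ) :
    HodgeIn D A P (pw X n) := by
  intro j x hx
  obtain ⟨r, e, l, he⟩ := exists_basis B.gen n
  let T : TB D A (pw X n) (Fin r) :=
    { v := e
      t := fun i s => B.tp (l i) s
      mem := fun i s => by rw [(he i).2]; exact B.tp_mem _ _ }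
  rw [← e.sum_repr x]
  refine Subalgebra.sum_mem _ fun i _ => ?_
  by_cases hi : e.repr x i = 0
  · rw [hi, zero_smul]
    exact Subalgebra.zero_mem _
  refine Subalgebra.smul_mem _ ?_ _
  have hsol : cnt (l i) ∈ sols B.forms := by
    rw [B.mem_sols]
    intro s
    have h1 : A.act s (pw X n) x ∈ D.hd (pw X n) j j := by
      rw [hx.1 s]
      exact hx.2
    have h2 : B.tp (l i) s = (j, j) := T.supp h1 hi
    rw [h2]
  rw [(he i).2]
  refine prd_closed (C := fun Z => {z : W.H Z | z ∈ P.sp Z}) B.gr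
    (fun Z => Subalgebra.one_mem _) (fun Z x hx => Subalgebra.neg_mem (P.sp Z) hx)
    (fun Z x hx y hy => Subalgebra.mul_mem (P.sp Z) hx hy) (fun Y Z g x hx => P.map g x hx)
    (M := sols B.forms) (N := N) sols_sub hn ?_ (l i) hsol
  intro m hm l' hl' hM
  obtain ⟨j', hj'⟩ := B.prd_hodge hM
  rw [HC_eq] at hj'
  change prd B.v l' ∈ P.sp (pw X m)
  generalize prd B.v l' = z at hj'
  induction hj' using Submodule.span_induction with
  | mem y hy => exact h m hm j' y hy
  | zero => exact Subalgebra.zero_mem _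
  | add y z _ _ hy hz => exact Subalgebra.add_mem _ hy hz
  | smul a y _ hy => exact Subalgebra.smul_mem _ hy a

end HGens

/-- The type of a homogeneous element. -/
lemma exists_type {d : ℕ} {x : W.H X} (hx : x ∈ W.gr X d) {t : Γ → ℤ} (ht : HasType D A X x t)
    (h0 : x ≠ 0) :
    ∃ τ : Γ → ℕ × ℕ, (∀ s, A.act s X x ∈ D.hd X (τ s).1 (τ s).2) ∧
      (∀ s, (τ s).1 + (τ s).2 = d) ∧ ∀ s, ((τ s).1 : ℤ) - (τ s).2 = t s := by
  choose p q hpq ht using ht
  refine ⟨fun s => (p s, q s), hpq, fun s => ?_, fun s => (ht s).symm⟩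
  have h1 := D.le_gr X _ _ (hpq s)
  have h2 := A.gr s X _ _ hx
  by_contra hne
  have h3 := proj_same (W.isInternal X) h2
  rw [proj_ne (W.isInternal X) h1 hne] at h3
  exact h0 (A.eq_zero h3.symm)

lemma exists_hgens (h : IsHGeneratedBy D A X f c) : Nonempty (HGens D A X f c) := by
  obtain ⟨v, hv, h⟩ := h
  have key : ∀ i, ∃ (d : ℕ) (τ : Γ → ℕ × ℕ), v i ∈ W.gr X d ∧
      (∀ s, A.act s X (v i) ∈ D.hd X (τ s).1 (τ s).2) ∧
      (∀ s, (τ s).1 + (τ s).2 = d) ∧ ∀ s, |((τ s).1 : ℤ) - (τ s).2| ≤ c := by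
    intro i
    by_cases h0 : v i = 0
    · rw [h0]
      refine ⟨0, fun _ => (0, 0), Submodule.zero_mem _, fun s => ?_, fun s => rfl, fun s => ?_⟩
      · rw [map_zero]
        exact Submodule.zero_mem _
      · simp
    · obtain ⟨d, t, h1, h2, h3⟩ := h i
      obtain ⟨τ, h4, h5, h6⟩ := exists_type h1 h2 h0
      exact ⟨d, τ, h1, h4, h5, fun s => by rw [h6]; exact h3 s⟩
  choose d τ h1 h2 h3 h4 using key
  exact ⟨⟨v, d, τ, hv, h1, h2, h3, h4⟩⟩

lemma isHGeneratedBy (hX : IsCMType D A X) :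
    IsHGeneratedBy D A X (Module.finrank W.K (W.H X)) X.dim := by
  obtain ⟨B⟩ := exists_TB hX
  refine ⟨B.v, ?_, fun i => ⟨(B.t i 1).1 + (B.t i 1).2, fun s => (B.t i s).1 - (B.t i s).2, ?_,
    fun s => ⟨_, _, B.mem i s, rfl⟩, fun s => ?_⟩⟩
  · rw [eq_top_iff]
    intro x _
    have h1 : x ∈ Submodule.span W.K (Set.range B.v) := by rw [B.v.span_eq]; trivial
    exact Algebra.span_le_adjoin W.K _ h1
  · have h1 := D.le_gr _ _ _ (B.mem i 1)
    rwa [A.one] at h1
  · have h1 := D.type_le (B.mem i s) (B.act_ne i s)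
    change |((B.t i s).1 : ℤ) - (B.t i s).2| ≤ _
    rw [abs_le]
    constructor <;> omega

/-- The generators of the cohomology of an abelian variety of CM type. -/
lemma exists_hgens_ab {g : ℕ} (h : IsHCMAbelian D A X g) :
    ∃ B : HGens D A X (g + g) 1, ∃ bar : Fin (g + g) → Fin (g + g), (∀ i, bar (bar i) = i) ∧
      (∀ i, bar i ≠ i) ∧ ∀ s ∈ B.forms, ∀ i, s (bar i) = -s i := by
  obtain ⟨v, v', hgen, hv⟩ := h
  choose h1 h10 h1' h10' t h2 h2' using hv
  choose τ h3 h4 h5 using fun i => exists_type (h1 i) (h2 i) (h10 i)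
  choose τ' h3' h4' h5' using fun i => exists_type (h1' i) (h2' i) (h10' i)
  let e : Fin g ⊕ Fin g ≃ Fin (g + g) := finSumFinEquiv
  let B : HGens D A X (g + g) 1 :=
    { v := fun i => Sum.elim v v' (e.symm i)
      dg := fun _ => 1
      t := fun i => Sum.elim τ τ' (e.symm i)
      gen := by
        rw [← hgen]
        congr 1
        ext x
        constructor
        · rintro ⟨i, rfl⟩
          obtain ⟨a, rfl⟩ := e.surjective i
          change Sum.elim v v' (e.symm (e a)) ∈ _
          rw [e.symm_apply_apply]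
          rcases a with a | a
          · exact Or.inl ⟨a, rfl⟩
          · exact Or.inr ⟨a, rfl⟩
        · rintro (⟨a, rfl⟩ | ⟨a, rfl⟩)
          · exact ⟨e (Sum.inl a), by
              change Sum.elim v v' (e.symm (e (Sum.inl a))) = _
              rw [e.symm_apply_apply]; rfl⟩
          · exact ⟨e (Sum.inr a), by
              change Sum.elim v v' (e.symm (e (Sum.inr a))) = _
              rw [e.symm_apply_apply]; rfl⟩
      gr := by
        intro i
        change Sum.elim v v' (e.symm i) ∈ _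
        rcases e.symm i with a | a
        · exact h1 a
        · exact h1' a
      mem := by
        intro i s
        change A.act s X (Sum.elim v v' (e.symm i)) ∈
          D.hd X (Sum.elim τ τ' (e.symm i) s).1 (Sum.elim τ τ' (e.symm i) s).2
        rcases e.symm i with a | a
        · exact h3 a s
        · exact h3' a s
      deg := by
        intro i s
        change (Sum.elim τ τ' (e.symm i) s).1 + (Sum.elim τ τ' (e.symm i) s).2 = 1
        rcases e.symm i with a | a
        · exact h4 a s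
        · exact h4' a s
      bd := by
        intro i s
        change |((Sum.elim τ τ' (e.symm i) s).1 : ℤ) - (Sum.elim τ τ' (e.symm i) s).2| ≤ ((1 : ℕ) : ℤ)
        rcases e.symm i with a | a
        · have := h4 a s
          rw [Sum.elim_inl, abs_le]
          constructor <;> push_cast <;> omega
        · have := h4' a s
          rw [Sum.elim_inr, abs_le]
          constructor <;> push_cast <;> omega }
  refine ⟨B, fun i => e (e.symm i).swap, fun i => ?_, fun i hi => ?_, ?_⟩
  · change e (e.symm (e (e.symm i).swap)).swap = i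
    rw [e.symm_apply_apply, Sum.swap_swap, e.apply_symm_apply]
  · change e (e.symm i).swap = i at hi
    have h7 := congrArg e.symm hi
    rw [e.symm_apply_apply] at h7
    rcases h8 : e.symm i with a | a <;> rw [h8] at h7 <;> simp at h7
  · rintro _ ⟨s, rfl⟩ i
    change ((Sum.elim τ τ' (e.symm (e (e.symm i).swap)) s).1 : ℤ) -
        (Sum.elim τ τ' (e.symm (e (e.symm i).swap)) s).2 =
      -(((Sum.elim τ τ' (e.symm i) s).1 : ℤ) - (Sum.elim τ τ' (e.symm i) s).2)
    rw [e.symm_apply_apply]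
    rcases e.symm i with a | a
    · rw [Sum.swap_inl, Sum.elim_inr, Sum.elim_inl, h5, h5', Pi.neg_apply]
    · rw [Sum.swap_inr, Sum.elim_inr, Sum.elim_inl, h5, h5', Pi.neg_apply, neg_neg]

/-- **Hodge classes on all powers of an abelian variety of CM type.** -/
theorem hodge_ab (P : ClassSystem W) {g : ℕ} (h : IsHCMAbelian D A X g)
    (hP : ∀ m < max 2 (g ^ (g + 2)), HodgeIn D A P (pw X m)) (n : ℕ) :
    HodgeIn D A P (pw X n) := by
  obtain ⟨B, bar, h1, h2, h3⟩ := exists_hgens_ab h
  have h4 : bound g 1 = g ^ (g + 2) := by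
    rw [bound, max_self, mul_one]
    ring
  refine B.hodge_all (N := max 2 (g ^ (g + 2))) ?_ P hP n
  rw [← h4]
  exact sols_small_paired (by omega) B.forms_le h1 h2 h3

/-- **Hodge classes on all powers of a variety of CM type.** -/
theorem hodge_main (P : ClassSystem W) :
    (∀ f c, IsHGeneratedBy D A X f c →
      (∀ m < hodgeBound f c, HodgeIn D A P (pw X m)) → ∀ n, HodgeIn D A P (pw X n)) ∧
    (IsCMType D A X → IsHGeneratedBy D A X (Module.finrank W.K (W.H X)) X.dim) := by
  refine ⟨fun f c hg h n => ?_, isHGeneratedBy⟩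
  obtain ⟨B⟩ := exists_hgens hg
  exact B.hodge_all (sols_small B.forms_le) P h n

end Pool.Agent.X297.BT
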