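import Pool.Agent.X297.CM.Defs

/-!
# Hodge classes on the powers of a variety of CM type: definitions
-/

open CategoryTheory AlgebraicGeometry

universe u v w

namespace Pool.Agent.X297.BT

open Pool.Agent.H914 Pool.Agent.H914.VarClass Pool.Agent.H914.VarClass.Obj
  Pool.Agent.H914.WeilCohomology Pool.Agent.X297.CM

variable {k : Type u} [Field k] {𝒱 : VarClass k} {ops : CycleOps 𝒱}
  {W : WeilCohomology.{u, v} ops} {Γ : Type w} [Group Γ]

/-- A system of classes: subalgebras of the cohomology algebras of all varieties, stable under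
pull-backs. Examples are the spans of the absolute Hodge classes, of the motivated classes, and of the
classes of algebraic cycles. -/
structure ClassSystem (W : WeilCohomology.{u, v} ops) where
  /-- the subalgebras -/
  sp : ∀ X : 𝒱.Obj, Subalgebra W.K (W.H X)
  map : ∀ {X Y : 𝒱.Obj} (f : X ⟶ Y), ∀ y ∈ sp Y, W.map f y ∈ sp X

/-- All Hodge classes on `X` belong to the system. -/
def HodgeIn (D : Decomposition W) (A : CoeffAction W Γ) (P : ClassSystem W) (X : 𝒱.Obj) : Prop :=
  ∀ j x, IsHodgeClass D A X j x → x ∈ P.sp X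

/-- The cohomology algebra of `X` is generated by `f` homogeneous elements all of whose conjugates
are of pure types `(p, q)` with `|p - q| ≤ c`. -/
def IsHGeneratedBy (D : Decomposition W) (A : CoeffAction W Γ) (X : 𝒱.Obj) (f c : ℕ) : Prop :=
  ∃ v : Fin f → W.H X, Algebra.adjoin W.K (Set.range v) = ⊤ ∧
    ∀ i, ∃ d t, v i ∈ W.gr X d ∧ HasType D A X (v i) t ∧ ∀ s, |t s| ≤ c

/-- The cohomology algebra of `X` is generated by homogeneous elements `v i`, `v' i` of degree one,
`i = 1, …, g`, different from `0`, all of whose conjugates are of pure types, those of `v' i`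
opposite to those of `v i`. -/
def IsHCMAbelian (D : Decomposition W) (A : CoeffAction W Γ) (X : 𝒱.Obj) (g : ℕ) : Prop :=
  ∃ v v' : Fin g → W.H X, Algebra.adjoin W.K (Set.range v ∪ Set.range v') = ⊤ ∧
    ∀ i, v i ∈ W.gr X 1 ∧ v i ≠ 0 ∧ v' i ∈ W.gr X 1 ∧ v' i ≠ 0 ∧
      ∃ t, HasType D A X (v i) t ∧ HasType D A X (v' i) (-t)

/-- The bound for the number of factors. -/
def hodgeBound (f c : ℕ) : ℕ := f ^ 2 * (f * max c 1) ^ f

end Pool.Agent.X297.BT
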