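import Pool.Agent.X297.GT.Defs

/-!
# Abelian Hodge-Tate Galois representations: definitions
-/

open CategoryTheory AlgebraicGeometry

universe u v w

namespace Pool.Agent.X297.BT

section Alg

/-- A subgroup `L` of the group `C` with weights: homomorphisms `wt · σ : L → ℤ` for `σ ∈ S`, such
that `χ` has the weights `1` and the elements of `L` all of whose weights are `0` have finite order.
In the intended use `C` is the group of the characters of the Galois group `Δ` of a number field
with values in the multiplicative group of `ℚ̄_ℓ`, `L` consists of the Hodge-Tate characters, `S` is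
the set of the embeddings of the number field into `ℚ̄_ℓ` and `wt ψ σ` are the Hodge-Tate weights
(with the sign for which the inverse of the cyclotomic character `χ` has the weights `1`). -/
structure WeightSystem {C : Type w} [CommGroup C] (χ : C) (S : Type) where
  /-- the subgroup -/
  L : Subgroup C
  /-- the weights -/
  wt : C → S → ℤ
  mul : ∀ ψ ∈ L, ∀ θ ∈ L, wt (ψ * θ) = wt ψ + wt θ
  mem : χ ∈ L
  one : ∀ σ, wt χ σ = 1
  fin : ∀ ψ ∈ L, (∀ σ, wt ψ σ = 0) → ∃ m, 0 < m ∧ ψ ^ m = 1

/-- The element `ψ` of `L` is of degree `i` and type at most `c`: the weights `a` and `i - a` differ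
by at most `c`. -/
def WeightSystem.IsBounded {C : Type w} [CommGroup C] {χ : C} {S : Type}
    (H : WeightSystem χ S) (c i : ℕ) (ψ : C) : Prop :=
  ψ ∈ H.L ∧ ∀ σ, |2 * H.wt ψ σ - i| ≤ c

variable {K : Type v} [Field K] {A : Type v} [Ring A] [Algebra K A] {Γ : Type w} [Group Γ]

/-- The algebra `A` is generated by `f` homogeneous eigenvectors of `Δ`, such that the weights of the
characters are bounded by `c`. -/
def IsGeneratedBy {χ : Γ →* Kˣ} {Δ : Subgroup Γ} {S : Type}
    (H : WeightSystem (χ.comp Δ.subtype) S) (gr : ℕ → Submodule K A) (ρ : Γ →* (A ≃ₐ[K] A))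
    (f c : ℕ) : Prop :=
  ∃ v : Fin f → A, Algebra.adjoin K (Set.range v) = ⊤ ∧
    ∀ i, ∃ d ψ, v i ∈ gr d ∧ GT.IsEigen ρ Δ ψ (v i) ∧ H.IsBounded c d ψ

/-- The characters of the homogeneous eigenvectors of `Δ` are Hodge-Tate, and the weights of those
in degree `i` are between `0` and `i` and between `i - d` and `d`. -/
def HasHodgeTateWeights {χ : Γ →* Kˣ} {Δ : Subgroup Γ} {S : Type}
    (H : WeightSystem (χ.comp Δ.subtype) S) (gr : ℕ → Submodule K A) (ρ : Γ →* (A ≃ₐ[K] A))
    (d : ℕ) : Prop :=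
  ∀ i ψ, ∀ x ∈ gr i, x ≠ 0 → GT.IsEigen ρ Δ ψ x → ψ ∈ H.L ∧
    ∀ σ, 0 ≤ H.wt ψ σ ∧ H.wt ψ σ ≤ i ∧ (i : ℤ) - d ≤ H.wt ψ σ ∧ H.wt ψ σ ≤ d

/-- The bound for the number of factors. -/
def powersBound (f c : ℕ) : ℕ := f ^ 2 * (f * max c 1) ^ f

end Alg

end Pool.Agent.X297.BT
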